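import Pool.Agent.W932.RO.Defs2
import Pool.Agent.W911.AL.Up
import Pool.Agent.W352.RO.POLY

/-!
# RO-INCL: the small class is contained in the big class
-/

set_option autoImplicit false
set_option linter.unusedVariables false

namespace Pool.Agent.W930.RO

open Finset Pool.Agent.NPC H568R2 Pool.Agent.H676 Pool.Agent.H622R2
open Pool.Agent.H620R2.Gauge Pool.Agent.H591R3.PHG Pool.Agent.W911.AL Pool.Agent.W932.RO
open Pool.Agent.W352.RO.POLY

theorem upoly_of {f : List Bool → ℕ} (h : PolyNat f) : UPoly f := by
  have h1 : Poly (fun x : List Bool => List.replicate (f x) true) := poly_of_polyTime h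
  exact (UPoly.length h1).congr fun x => by simp

/-- the address read so far -/
def ad (m : List Bool → ℕ) (b : ℕ → List Bool → ℕ) (x u : List Bool) : ℕ → List Bool
  | 0 => x
  | i + 1 => ad m b x u i ++ (u.drop (i * m x)).take (b i x)

theorem poly_ad {m : List Bool → ℕ} {b : ℕ → List Bool → ℕ} (hm : UPoly m)
    (hb : ∀ i, UPoly (b i)) (i : ℕ) :
    Poly (fun p : List Bool × List Bool => ad m b p.1 p.2 i) := by
  induction i with
  | zero => exact Poly.fst Poly.id
  | succ i ih =>
    exact Poly.append ih (R1.poly_take (Up.poly_drop (Poly.snd Poly.id)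
      (UPoly.mul (UPoly.const i) (hm.comp (Poly.fst Poly.id)))) ((hb i).comp (Poly.fst Poly.id)))

theorem ad_append {m : List Bool → ℕ} {b : ℕ → List Bool → ℕ} {x : List Bool}
    (hb : ∀ i, b i x ≤ m x) (u z : List Bool) : ∀ k, k * m x ≤ u.length →
    ad m b x (u ++ z) k = ad m b x u k := by
  intro k
  induction k with
  | zero => intro _; rfl
  | succ k ih =>
    intro hk
    rw [add_mul, one_mul] at hk
    have h1 := hb k
    unfold ad
    rw [ih (by omega), List.drop_append_of_le_length (by omega),
      List.take_append_of_le_length (by rw [List.length_drop]; omega)]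

theorem ad_succ {m : List Bool → ℕ} {b : ℕ → List Bool → ℕ} {x : List Bool}
    (hb : ∀ i, b i x ≤ m x) (u z : List Bool) (i : ℕ) (hu : u.length = i * m x) :
    ad m b x (u ++ z) (i + 1) = ad m b x u i ++ z.take (b i x) := by
  rw [ad, ad_append hb u z i hu.ge, ← hu, List.drop_left]

theorem ex_take {a m : ℕ} (φ : List Bool → Prop) (ha : a ≤ m) :
    (∃ w : List Bool, w.length = m ∧ φ (w.take a)) ↔ ∃ w : List Bool, w.length = a ∧ φ w := by
  constructor
  · rintro ⟨w, hw, h⟩
    exact ⟨w.take a, by rw [List.length_take, hw, min_eq_left ha], h⟩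
  · rintro ⟨w, hw, h⟩
    refine ⟨w ++ List.replicate (m - a) false, ?_, ?_⟩
    · rw [List.length_append, hw, List.length_replicate]
      omega
    · rw [← hw, List.take_left]
      exact h

theorem all_take {a m : ℕ} (φ : List Bool → Prop) (ha : a ≤ m) :
    (∀ w : List Bool, w.length = m → φ (w.take a)) ↔ ∀ w : List Bool, w.length = a → φ w := by
  have h := ex_take (fun w => ¬ φ w) ha
  constructor
  · intro h1 w hw
    by_contra h2
    obtain ⟨w', hw', h3⟩ := h.2 ⟨w, hw, h2⟩
    exact h3 (h1 w' hw')
  · intro h1 w hw
    by_contra h2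
    obtain ⟨w', hw', h3⟩ := h.1 ⟨w, hw, h2⟩
    exact h3 (h1 w' hw')

theorem alt_blocks {m : List Bool → ℕ} {b : ℕ → List Bool → ℕ} {x : List Bool}
    (hb : ∀ i, b i x ≤ m x) (Φ : List Bool → Prop) (t : ℕ) :
    ∀ (j i : ℕ) (β : Bool) (u : List Bool), i + j = t → u.length = i * m x →
    (Alt (m x) (fun v => Φ (ad m b x v t)) j β u ↔
      Blocks Φ ((List.range' i j).map fun i => b i x) β (ad m b x u i)) := by
  intro j
  induction j with
  | zero =>
    intro i β u hi hu
    have hi' : i = t := by omega
    subst hi'
    have h1 : Alt (m x) (fun v => Φ (ad m b x v i)) 0 β u ↔ Φ (ad m b x u i) := by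
      cases β <;> exact Iff.rfl
    have h2 : Blocks Φ ((List.range' i 0).map fun i => b i x) β (ad m b x u i) ↔
        Φ (ad m b x u i) := by
      cases β <;> exact Iff.rfl
    rw [h1, h2]
  | succ j ih =>
    intro i β u hi hu
    rw [List.range'_succ, List.map_cons]
    have key : ∀ (β' : Bool) (z : List Bool), z.length = m x →
        (Alt (m x) (fun v => Φ (ad m b x v t)) j β' (u ++ z) ↔
          Blocks Φ ((List.range' (i + 1) j).map fun i => b i x) β'
            (ad m b x u i ++ z.take (b i x))) := by
      intro β' z hz
      rw [ih (i + 1) β' (u ++ z) (by omega) (by rw [List.length_append, hu, hz]; ring),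
        ad_succ hb u z i hu]
    cases β with
    | true =>
      rw [Alt, Blocks, ← ex_take (fun w => Blocks Φ ((List.range' (i + 1) j).map fun i => b i x)
        false (ad m b x u i ++ w)) (hb i)]
      exact exists_congr fun z => and_congr_right fun hz => key false z hz
    | false =>
      rw [Alt, Blocks, ← all_take (fun w => Blocks Φ ((List.range' (i + 1) j).map fun i => b i x)
        true (ad m b x u i ++ w)) (hb i)]
      exact forall_congr' fun z => forall_congr' fun hz => key true z hz

/-! ### the machine -/

/-- the next action of the machine -/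
def D (m : List Bool → ℕ) (b : ℕ → List Bool → ℕ) (v : List Bool → ℕ) (e : Bool) (t : ℕ)
    (y : List Bool) : List Bool :=
  if (unpair y).2.length < v (unpair (unpair y).1).1 then
    false :: (ad m b (unpair (unpair y).1).1 (unpair (unpair y).1).2 t ++
      (unpair y).2.map (fun _ => true))
  else [true, decide (((unpair y).2.all fun c => !c) = e)]

theorem poly_D {m : List Bool → ℕ} {b : ℕ → List Bool → ℕ} {v : List Bool → ℕ} (hm : UPoly m)
    (hb : ∀ i, UPoly (b i)) (hv : UPoly v) (e : Bool) (t : ℕ) : Poly (D m b v e t) := by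
  have h2 : Poly (fun y : List Bool => (unpair y).2) := Poly.snd poly_unpair
  have h1 : Poly (fun y : List Bool => (unpair y).1) := Poly.fst poly_unpair
  have h11 : Poly (fun y : List Bool => (unpair (unpair y).1).1) := h1.comp h1
  have h12 : Poly (fun y : List Bool => (unpair (unpair y).1).2) := h2.comp h1
  refine Poly.ite (Poly.decide_lt (Poly.length h2) (hv.toPoly.comp h11)) ?_ ?_
  · refine Poly.cons (NPC.Poly.const false) (Poly.append ?_ ?_)
    · exact (poly_ad hm hb t).comp (Poly.pair h11 h12)
    · exact NPC.Poly.map (F := fun _ _ => true) h2 (NPC.Poly.const true)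
  · refine Poly.cons (NPC.Poly.const true) (Poly.cons ?_ (NPC.Poly.const []))
    exact Poly.decide_eq (Poly.all (p := fun _ b => !b) h2 (Poly.not (Poly.snd Poly.id)))
      (NPC.Poly.const e)

/-- the run of the machine -/
theorem run_eq (A : Oracle) (m : List Bool → ℕ) (b : ℕ → List Bool → ℕ) (v : List Bool → ℕ)
    (e : Bool) (t : ℕ) (M : Alg) (hM : M.D = D m b v e t) (x u : List Bool) :
    ∀ (j l n : ℕ), l + j = v x → j < n →
      M.run A (pairBits x u) n
        ((List.range l).map fun i => A (ad m b x u t ++ List.replicate i true)) =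
      some [decide (bitv A (v x) (ad m b x u t) = e)] := by
  intro j
  induction j with
  | zero =>
    intro l n hl hn
    obtain ⟨n, rfl⟩ : ∃ n', n = n' + 1 := ⟨n - 1, by omega⟩
    rw [Alg.run, hM]
    unfold D
    rw [unpair_pairBits, unpair_pairBits]
    simp only [List.length_map, List.length_range]
    rw [if_neg (by omega)]
    simp only
    congr 2
    have h1 : (((List.range l).map fun i => A (ad m b x u t ++ List.replicate i true)).all
        fun c => !c) = bitv A (v x) (ad m b x u t) := by
      rw [Bool.eq_iff_iff]
      unfold bitv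
      rw [List.all_eq_true, decide_eq_true_iff]
      simp only [List.mem_map, List.mem_range, Bool.not_eq_true']
      constructor
      · intro h i hi
        exact h _ ⟨i, by omega, rfl⟩
      · rintro h c ⟨i, hi, rfl⟩
        exact h i (by omega)
    rw [h1]
  | succ j ih =>
    intro l n hl hn
    obtain ⟨n, rfl⟩ : ∃ n', n = n' + 1 := ⟨n - 1, by omega⟩
    rw [Alg.run, hM]
    unfold D
    rw [unpair_pairBits, unpair_pairBits]
    simp only [List.length_map, List.length_range]
    rw [if_pos (by omega)]
    simp only
    have h1 := ih (l + 1) n (by omega) (by omega)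
    rw [List.range_succ, List.map_append] at h1
    have h2 : (((List.range l).map fun i => A (ad m b x u t ++ List.replicate i true)).map
        fun _ => true) = List.replicate l true := by
      rw [List.map_map]
      apply List.ext_getElem
      · simp
      · intro i h h'
        simp
    rw [h2]
    exact h1

theorem main : StmIncl := by
  rintro A t κ Q hκ ⟨b, v, e, hb, hv, h0, h1, h2, h3⟩
  have hκ' := upoly_of hκ
  have hb' : ∀ i, UPoly (b i) := fun i => upoly_of (hb i)
  have hv' := upoly_of hv
  let m : List Bool → ℕ := fun x => (κ x + 1) * lg x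
  have hm : UPoly m := UPoly.mul (UPoly.add hκ' (UPoly.const 1)) upoly_lg
  have hD := poly_D hm hb' hv' e t
  let M : Alg := ⟨D m b v e t, polyTime_of_poly_list hD, 0⟩
  -- the first component
  let P : List Bool → List Bool := fun y => (unpair y).1
  have hP : IsFP A P := by
    have hPP : Poly (fun y : List Bool => true :: (unpair (unpair y).1).1) :=
      Poly.cons (NPC.Poly.const true) (Poly.fst (poly_unpair.comp (Poly.fst poly_unpair)))
    refine ⟨⟨fun y => true :: (unpair (unpair y).1).1, polyTime_of_poly_list hPP, 1⟩, ?_⟩
    intro x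
    unfold Alg.out
    simp only [Polynomial.eval_one]
    rw [show (1 : ℕ) = 0 + 1 from rfl, Alg.run]
    simp only
    rw [unpair_pairBits]
  refine ⟨P, M, fun _ => [], fun k => k + 1, hP, ?_⟩
  intro x
  have hPx : P (pairBits x []) = x := by
    show (unpair (pairBits x [])).1 = x
    rw [unpair_pairBits]
  have hbm : ∀ i, b i x ≤ m x := by
    intro i
    show b i x ≤ (κ x + 1) * lg x
    rw [add_mul, one_mul]
    cases i with
    | zero => exact (h0 x).trans (Nat.le_add_right _ _)
    | succ i => exact (h1 i x).trans (Nat.le_add_left _ _)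
  have hvm : v x ≤ m x := by
    show v x ≤ (κ x + 1) * lg x
    rw [add_mul, one_mul]
    exact (h2 x).trans (Nat.le_add_left _ _)
  rw [h3 x]
  have hR : (fun u => M.run A (pairBits (P (pairBits x ((fun _ => []) (κ x)))) u)
      ((fun k => k + 1) (κ x) * lg x + 1) [] = some [true]) =
      fun u => bitv A (v x) (ad m b x u t) = e := by
    funext u
    simp only
    rw [hPx]
    have h4 := run_eq A m b v e t M rfl x u (v x) 0 (m x + 1) (by omega) (by omega)
    simp only [List.range_zero, List.map_nil] at h4
    have h5 : M.run A (pairBits x u) ((κ x + 1) * lg x + 1) [] =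
      some [decide (bitv A (v x) (ad m b x u t) = e)] := h4
    rw [h5]
    simp
  rw [hR]
  have h6 := alt_blocks hbm (fun q => bitv A (v x) q = e) t t 0 true [] (by omega) (by simp)
  rw [← List.range_eq_range'] at h6
  exact h6.symm

end Pool.Agent.W930.RO
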